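import Mathlib

/-!
# Digraphs which do not split into a `k`-arc-connected flip and a `(τ - k)`-dijoin

For all `k ≥ 2` and `τ ≥ 2 k + 1` there is a digraph with `2 k`-edge-connected underlying graph all
of whose dicuts have at least `τ` arcs, and whose arc set does not decompose into a
`k`-arc-connected flip and a `(τ - k)`-dijoin.

The digraph has `2 k + 3` vertices: a directed cycle of length `n = 2 k + 1` all of whose arcs have
multiplicity `k - 1`, and two sources joined to every vertex of the cycle, with `τ - n` further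
arcs from each source to the vertex `0`.  If `J` is a `k`-arc-connected flip whose complement is a
`(τ - k)`-dijoin, then `J` has at most `k` arcs at each source, and adding the out-degrees of the
vertices of the cycle after the flip gives `n k ≤ n (k - 1) + 2 k`, which is false.
-/

set_option autoImplicit false

namespace Pool.Agent.Results.MP_3933ef_co.NoSplitting
open Finset

/-- A digraph with vertex set `V` and arc set `A`; parallel arcs are allowed. -/
structure MDigraph (V A : Type) where
  /-- the tail of an arc -/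
  src : A → V
  /-- the head of an arc -/
  dst : A → V

variable {V A : Type} [Fintype V] [DecidableEq V] [Fintype A] [DecidableEq A]

/-- `δ⁺(U)`: the arcs leaving `U`. -/
def dout (D : MDigraph V A) (U : Finset V) : Finset A :=
  univ.filter fun a => D.src a ∈ U ∧ D.dst a ∉ U

/-- `δ⁻(U)`: the arcs entering `U`. -/
def din (D : MDigraph V A) (U : Finset V) : Finset A :=
  univ.filter fun a => D.src a ∉ U ∧ D.dst a ∈ U

/-- `C` is a dicut: `C = δ⁺(U)` with `∅ ≠ U ⊊ V` and `δ⁻(U) = ∅`. -/
def IsDicut (D : MDigraph V A) (C : Finset A) : Prop :=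
  ∃ U : Finset V, U.Nonempty ∧ U ≠ univ ∧ din D U = ∅ ∧ dout D U = C

/-- `J` is an `m`-dijoin: it has at least `m` arcs in every dicut. -/
def IsDijoin (D : MDigraph V A) (m : ℕ) (J : Finset A) : Prop :=
  ∀ C, IsDicut D C → m ≤ (J ∩ C).card

/-- The digraph in which all arcs of `J` are reversed. -/
def flip (D : MDigraph V A) (J : Finset A) : MDigraph V A where
  src a := if a ∈ J then D.dst a else D.src a
  dst a := if a ∈ J then D.src a else D.dst a

/-- `k`-arc-connected: at least `k` arcs leave every nonempty proper set of vertices. -/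
def ArcConnected (D : MDigraph V A) (k : ℕ) : Prop :=
  ∀ U : Finset V, U.Nonempty → U ≠ univ → k ≤ (dout D U).card

/-- The underlying undirected multigraph is `m`-edge-connected. -/
def EdgeConnected (D : MDigraph V A) (m : ℕ) : Prop :=
  ∀ U : Finset V, U.Nonempty → U ≠ univ → m ≤ (dout D U).card + (din D U).card

/-- The arc set decomposes into a `k`-arc-connected flip and a `(τ - k)`-dijoin. -/
def Splits (D : MDigraph V A) (τ k : ℕ) : Prop :=
  ∃ J J' : Finset A, J ∪ J' = univ ∧ Disjoint J J' ∧ ArcConnected (flip D J) k ∧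
    IsDijoin D (τ - k) J'

/-- vertices of the example -/
abbrev Vx (k : ℕ) := ZMod (2 * k + 1) ⊕ Bool

/-- arcs of the example: cycle arcs, arcs from the sources, extra arcs from the sources -/
abbrev Ax (τ k : ℕ) :=
  (ZMod (2 * k + 1) × Fin (k - 1)) ⊕ ((Bool × ZMod (2 * k + 1)) ⊕ (Bool × Fin (τ - (2 * k + 1))))

/-- the example -/
def Dx (τ k : ℕ) : MDigraph (Vx k) (Ax τ k) where
  src := fun a => match a with
    | .inl (i, _) => .inl i
    | .inr (.inl (b, _)) => .inr b
    | .inr (.inr (b, _)) => .inr b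
  dst := fun a => match a with
    | .inl (i, _) => .inl (i + 1)
    | .inr (.inl (_, i)) => .inl i
    | .inr (.inr (_, _)) => .inl 0

omit [Fintype V] [DecidableEq A] in
@[simp] lemma mem_dout (D : MDigraph V A) (U : Finset V) (a : A) :
    a ∈ dout D U ↔ D.src a ∈ U ∧ D.dst a ∉ U := by simp [dout]

omit [Fintype V] [DecidableEq A] in
@[simp] lemma mem_din (D : MDigraph V A) (U : Finset V) (a : A) :
    a ∈ din D U ↔ D.src a ∉ U ∧ D.dst a ∈ U := by simp [din]

@[simp] lemma src1 (τ k : ℕ) (x : ZMod (2 * k + 1) × Fin (k - 1)) :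
    (Dx τ k).src (.inl x) = .inl x.1 := rfl

@[simp] lemma src2 (τ k : ℕ) (x : Bool × ZMod (2 * k + 1)) :
    (Dx τ k).src (.inr (.inl x)) = .inr x.1 := rfl

@[simp] lemma src3 (τ k : ℕ) (x : Bool × Fin (τ - (2 * k + 1))) :
    (Dx τ k).src (.inr (.inr x)) = .inr x.1 := rfl

@[simp] lemma dst1 (τ k : ℕ) (x : ZMod (2 * k + 1) × Fin (k - 1)) :
    (Dx τ k).dst (.inl x) = .inl (x.1 + 1) := rfl

@[simp] lemma dst2 (τ k : ℕ) (x : Bool × ZMod (2 * k + 1)) :
    (Dx τ k).dst (.inr (.inl x)) = .inl x.2 := rfl

@[simp] lemma dst3 (τ k : ℕ) (x : Bool × Fin (τ - (2 * k + 1))) :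
    (Dx τ k).dst (.inr (.inr x)) = .inl 0 := rfl

/-- a set of residues closed under adding one is everything -/
lemma cyc {n : ℕ} [NeZero n] (P : ZMod n → Prop) (hP : ∀ i, P i → P (i + 1)) {i : ZMod n}
    (hi : P i) (j : ZMod n) : P j := by
  have h : ∀ m : ℕ, P (i + m) := by
    intro m
    induction m with
    | zero => simpa using hi
    | succ m ih =>
      have := hP _ ih
      rw [add_assoc] at this
      exact_mod_cast this
  have := h (j - i).val
  rwa [ZMod.natCast_zmod_val, add_sub_cancel] at this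

/-- all arcs leaving a source -/
lemma card_source (τ k : ℕ) (hτ : 2 * k + 1 ≤ τ) (b : Bool) (U : Finset (Vx k))
    (hb : Sum.inr b ∈ U) (hU : ∀ i, Sum.inl i ∉ U) : τ ≤ (dout (Dx τ k) U).card := by
  classical
  let f : ZMod (2 * k + 1) ⊕ Fin (τ - (2 * k + 1)) → Ax τ k := fun x => match x with
    | .inl i => .inr (.inl (b, i))
    | .inr j => .inr (.inr (b, j))
  have hf : Function.Injective f := by
    rintro (x | x) (y | y) h <;> simp [f] at h ⊢ <;> exact h
  have hsub : univ.image f ⊆ dout (Dx τ k) U := by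
    intro a ha
    simp only [mem_image, mem_univ, true_and] at ha
    obtain ⟨x, rfl⟩ := ha
    rcases x with x | x <;> simp [f, hb, hU]
  have hcard := card_le_card hsub
  rw [card_image_of_injective _ hf] at hcard
  simp [ZMod.card] at hcard
  omega

lemma conn (τ k : ℕ) (hk : 2 ≤ k) (hτ : 2 * k + 1 ≤ τ) : EdgeConnected (Dx τ k) (2 * k) := by
  classical
  intro U hne huniv
  have hdisj : Disjoint (dout (Dx τ k) U) (din (Dx τ k) U) := by
    rw [Finset.disjoint_left]
    intro a ha hb
    rw [mem_dout] at ha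
    rw [mem_din] at hb
    exact hb.1 ha.1
  rw [← card_union_of_disjoint hdisj]
  by_cases hall : ∀ i, Sum.inl i ∈ U
  · -- some source is missing
    obtain ⟨b, hb⟩ : ∃ b, Sum.inr b ∉ U := by
      by_contra hcon
      push Not at hcon
      exact huniv (eq_univ_iff_forall.2 (by rintro (i | b); exacts [hall i, hcon b]))
    let f : ZMod (2 * k + 1) → Ax τ k := fun i => .inr (.inl (b, i))
    have hf : Function.Injective f := by
      intro x y h
      simpa [f] using h
    have hsub : univ.image f ⊆ dout (Dx τ k) U ∪ din (Dx τ k) U := by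
      intro a ha
      simp only [mem_image, mem_univ, true_and] at ha
      obtain ⟨x, rfl⟩ := ha
      simp [f, hb, hall]
    have hcard := card_le_card hsub
    rw [card_image_of_injective _ hf] at hcard
    simp [ZMod.card] at hcard
    omega
  · push Not at hall
    obtain ⟨j, hj⟩ := hall
    by_cases hnone : ∀ i, Sum.inl i ∉ U
    · obtain ⟨v, hv⟩ := hne
      rcases v with i | b
      · exact absurd hv (hnone i)
      · have := card_source τ k hτ b U hv hnone
        have h2 := card_le_card (subset_union_left (s₁ := dout (Dx τ k) U) (s₂ := din (Dx τ k) U))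
        omega
    · push Not at hnone
      obtain ⟨i, hi⟩ := hnone
      obtain ⟨i₁, h1, h1'⟩ : ∃ i₁, Sum.inl i₁ ∈ U ∧ Sum.inl (i₁ + 1) ∉ U := by
        by_contra hcon
        push Not at hcon
        exact hj (cyc (fun i => Sum.inl i ∈ U) hcon hi j)
      obtain ⟨i₂, h2, h2'⟩ : ∃ i₂, Sum.inl i₂ ∉ U ∧ Sum.inl (i₂ + 1) ∈ U := by
        by_contra hcon
        push Not at hcon
        exact cyc (fun i => Sum.inl i ∉ U) hcon hj i hi
      have h12 : i₁ ≠ i₂ := by
        rintro rfl
        exact h2 h1
      let f : (Bool × Fin (k - 1)) ⊕ Bool → Ax τ k := fun x => match x with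
        | .inl (c, t) => .inl (if c then i₁ else i₂, t)
        | .inr b => .inr (.inl (b, if Sum.inr b ∈ U then j else i))
      have hf : Function.Injective f := by
        rintro (⟨c, t⟩ | b) (⟨c', t'⟩ | b') h
        · rcases c <;> rcases c' <;> simp_all [f]
        · simp [f] at h
        · simp [f] at h
        · simp only [f, Sum.inr.injEq, Sum.inl.injEq, Prod.mk.injEq] at h
          rw [h.1]
      have hsub : univ.image f ⊆ dout (Dx τ k) U ∪ din (Dx τ k) U := by
        intro a ha
        simp only [mem_image, mem_univ, true_and] at ha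
        obtain ⟨x, rfl⟩ := ha
        rcases x with ⟨c, t⟩ | b
        · rcases c <;> simp [f, h1, h1', h2, h2']
        · by_cases hb : Sum.inr b ∈ U <;> simp [f, hb, hi, hj]
      have hcard := card_le_card hsub
      rw [card_image_of_injective _ hf] at hcard
      simp at hcard
      omega

lemma dicut_sources (τ k : ℕ) (hk : 2 ≤ k) (U : Finset (Vx k)) (huniv : U ≠ univ)
    (hin : din (Dx τ k) U = ∅) : ∀ i, Sum.inl i ∉ U := by
  intro i hi
  have hno : ∀ a, ¬ ((Dx τ k).src a ∉ U ∧ (Dx τ k).dst a ∈ U) := by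
    intro a ha
    have : a ∈ din (Dx τ k) U := by simpa using ha
    rw [hin] at this
    simp at this
  have hall : ∀ j, Sum.inl j ∈ U := by
    intro j
    by_contra hj
    refine (cyc (fun i => (Sum.inl i : Vx k) ∉ U) ?_ hj i) hi
    intro l hl hl'
    exact hno (.inl (l, ⟨0, by omega⟩)) ⟨hl, hl'⟩
  apply huniv
  rw [eq_univ_iff_forall]
  rintro (j | b)
  · exact hall j
  · by_contra hb
    exact hno (.inr (.inl (b, i))) ⟨hb, hi⟩

lemma dicuts (τ k : ℕ) (hk : 2 ≤ k) (hτ : 2 * k + 1 ≤ τ) (C : Finset (Ax τ k))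
    (hC : IsDicut (Dx τ k) C) : τ ≤ C.card := by
  obtain ⟨U, hne, huniv, hin, rfl⟩ := hC
  have hU := dicut_sources τ k hk U huniv hin
  obtain ⟨v, hv⟩ := hne
  rcases v with i | b
  · exact absurd hv (hU i)
  · exact card_source τ k hτ b U hv hU

lemma card_source_eq (τ k : ℕ) (hτ : 2 * k + 1 ≤ τ) (b : Bool) :
    (dout (Dx τ k) {Sum.inr b}).card = τ := by
  classical
  let f : ZMod (2 * k + 1) ⊕ Fin (τ - (2 * k + 1)) → Ax τ k := fun x => match x with
    | .inl i => .inr (.inl (b, i))
    | .inr j => .inr (.inr (b, j))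
  have hf : Function.Injective f := by
    rintro (x | x) (y | y) h <;> simp [f] at h ⊢ <;> exact h
  have heq : dout (Dx τ k) {Sum.inr b} = univ.image f := by
    ext a
    simp only [mem_image, mem_univ, true_and, mem_dout, mem_singleton]
    constructor
    · rintro ⟨h1, -⟩
      rcases a with ⟨i, t⟩ | ⟨c, i⟩ | ⟨c, j⟩
      · simp at h1
      · simp only [src2, Sum.inr.injEq] at h1
        exact ⟨.inl i, by simp [f, h1]⟩
      · simp only [src3, Sum.inr.injEq] at h1
        exact ⟨.inr j, by simp [f, h1]⟩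
    · rintro ⟨x, rfl⟩
      rcases x with x | x <;> simp [f]
  rw [heq, card_image_of_injective _ hf]
  simp [ZMod.card]
  omega

lemma no_split (τ k : ℕ) (hk : 2 ≤ k) (hτ : 2 * k + 1 ≤ τ) : ¬ Splits (Dx τ k) τ k := by
  classical
  rintro ⟨J, J', hJ, hdisj, hconn, hdij⟩
  -- at most `k` arcs of `J` at each source
  have hsrc : ∀ b, (J ∩ dout (Dx τ k) {Sum.inr b}).card ≤ k := by
    intro b
    have hcut : IsDicut (Dx τ k) (dout (Dx τ k) {Sum.inr b}) := by
      refine ⟨{Sum.inr b}, ⟨_, mem_singleton_self _⟩, ?_, ?_, rfl⟩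
      · intro h
        have : (Sum.inl 0 : Vx k) ∈ ({Sum.inr b} : Finset (Vx k)) := by rw [h]; simp
        simp at this
      · rw [Finset.eq_empty_iff_forall_notMem]
        rintro (⟨i, t⟩ | ⟨c, i⟩ | ⟨c, j⟩) <;> simp
    have h1 := hdij _ hcut
    have h2 := card_source_eq τ k hτ b
    set C := dout (Dx τ k) {Sum.inr b} with hCdef
    have h3 : (J ∩ C).card + (J' ∩ C).card = C.card := by
      rw [← card_union_of_disjoint (hdisj.mono inter_subset_left inter_subset_left),
        ← union_inter_distrib_right, hJ, univ_inter]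
    omega
  -- out-degrees after the flip
  have hout : ∀ i : ZMod (2 * k + 1),
      k ≤ ((univ : Finset (Ax τ k)).filter fun a => (flip (Dx τ k) J).src a = Sum.inl i).card := by
    intro i
    have h1 := hconn {Sum.inl i} ⟨_, mem_singleton_self _⟩ (by
      intro h
      have : (Sum.inr true : Vx k) ∈ ({Sum.inl i} : Finset (Vx k)) := by rw [h]; simp
      simp at this)
    refine h1.trans (card_le_card ?_)
    intro a ha
    rw [mem_dout, mem_singleton] at ha
    simpa using ha.1
  have hsum : (2 * k + 1) * k ≤ ∑ i : ZMod (2 * k + 1),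
      ((univ : Finset (Ax τ k)).filter fun a => (flip (Dx τ k) J).src a = Sum.inl i).card := by
    have := Finset.sum_le_sum (fun i (_ : i ∈ (univ : Finset (ZMod (2 * k + 1)))) => hout i)
    simpa [ZMod.card] using this
  have hbi : ∑ i : ZMod (2 * k + 1),
      ((univ : Finset (Ax τ k)).filter fun a => (flip (Dx τ k) J).src a = Sum.inl i).card =
      ((univ : Finset (ZMod (2 * k + 1))).biUnion fun i =>
        (univ : Finset (Ax τ k)).filter fun a => (flip (Dx τ k) J).src a = Sum.inl i).card := by
    rw [card_biUnion]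
    intro i _ j _ hij
    rw [Function.onFun, Finset.disjoint_left]
    intro a ha hb
    simp only [mem_filter] at ha hb
    exact hij (Sum.inl_injective (ha.2.symm.trans hb.2))
  let g : ZMod (2 * k + 1) × Fin (k - 1) → Ax τ k := Sum.inl
  have hsub : ((univ : Finset (ZMod (2 * k + 1))).biUnion fun i =>
        (univ : Finset (Ax τ k)).filter fun a => (flip (Dx τ k) J).src a = Sum.inl i) ⊆
      univ.image g ∪ ((J ∩ dout (Dx τ k) {Sum.inr false}) ∪
        (J ∩ dout (Dx τ k) {Sum.inr true})) := by
    intro a ha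
    simp only [mem_biUnion, mem_filter, mem_univ, true_and] at ha
    obtain ⟨i, hi⟩ := ha
    rcases a with x | y
    · exact mem_union_left _ (mem_image.2 ⟨x, mem_univ _, rfl⟩)
    · apply mem_union_right
      have hmem : (Sum.inr y : Ax τ k) ∈ J := by
        by_contra hcon
        rcases y with ⟨c, j⟩ | ⟨c, j⟩ <;> simp [flip, hcon] at hi
      rcases y with ⟨c, j⟩ | ⟨c, j⟩ <;> rcases c <;> simp [hmem]
  have hc := card_le_card hsub
  have hc1 : (univ.image g).card ≤ (2 * k + 1) * (k - 1) := by
    refine card_image_le.trans ?_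
    simp [ZMod.card]
  have hc2 := card_union_le (univ.image g) ((J ∩ dout (Dx τ k) {Sum.inr false}) ∪
        (J ∩ dout (Dx τ k) {Sum.inr true}))
  have hc3 := card_union_le (J ∩ dout (Dx τ k) {Sum.inr false})
        (J ∩ dout (Dx τ k) {Sum.inr true})
  have hc4 := hsrc false
  have hc5 := hsrc true
  have hfin : (2 * k + 1) * k ≤ (2 * k + 1) * (k - 1) + 2 * k := by
    rw [hbi] at hsum
    omega
  obtain ⟨m, rfl⟩ : ∃ m, k = m + 1 := ⟨k - 1, by omega⟩
  simp only [Nat.add_sub_cancel] at hfin
  nlinarith

/-- **For all `k ≥ 2` and `τ ≥ 2 k + 1` there is a digraph with `2 k`-edge-connected underlying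
multigraph, all of whose dicuts have at least `τ` arcs, whose arc set does not decompose into a
`k`-arc-connected flip and a `(τ - k)`-dijoin.** -/
theorem result (k τ : ℕ) (hk : 2 ≤ k) (hτ : 2 * k + 1 ≤ τ) :
    ∃ (V A : Type) (_ : Fintype V) (_ : DecidableEq V) (_ : Fintype A) (_ : DecidableEq A)
      (D : MDigraph V A), EdgeConnected D (2 * k) ∧ (∀ C, IsDicut D C → τ ≤ C.card) ∧
        ¬ Splits D τ k :=
  ⟨Vx k, Ax τ k, inferInstance, inferInstance, inferInstance, inferInstance, Dx τ k,
    conn τ k hk hτ, dicuts τ k hk hτ, no_split τ k hk hτ⟩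

end Pool.Agent.Results.MP_3933ef_co.NoSplitting
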